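import Pool.Agent.X114.PD.Good

/-!
# Maximal density of sets avoiding polynomial-value differences

For every integer polynomial `h`, the maximal upper density of a set of positive integers
whose differences avoid the nonzero values of `h` at the integers (or at the primes) is the supremum
of the densities of the periodic sets with this property.

The proof passes to an invariant measure on the two-sided shift, takes the conditional expectation
on the sets that are invariant under some power of the shift, and uses that sums over the integers,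
and over the primes, in a residue class with a polynomial phase and an irrational factor are of
smaller order than the number of terms.
-/

set_option autoImplicit false

namespace Pool.Agent.Results.MP_e70ed2_nt.PolynomialDifferenceDensity

open Polynomial Filter Topology Finset MeasureTheory

/-- the upper density of a set of natural numbers, the upper limit of `|A ∩ {1, ..., N}| / N` -/
noncomputable def upperDensity (A : Set ℕ) : ℝ :=
  limsup (fun N : ℕ => ((A ∩ Set.Icc 1 N).ncard : ℝ) / N) atTop

/-- `A` is a set of positive integers with `(A - A) ∩ X ⊆ {0}` -/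
def Avoids (A : Set ℕ) (X : Set ℤ) : Prop :=
  (∀ a ∈ A, 1 ≤ a) ∧ ∀ a ∈ A, ∀ b ∈ A, (a : ℤ) - b ∈ X → (a : ℤ) - b = 0

/-- the supremum of the upper densities of the sets avoiding `X` -/
noncomputable def mu (X : Set ℤ) : ℝ :=
  sSup {δ : ℝ | ∃ A : Set ℕ, Avoids A X ∧ δ = upperDensity A}

/-- the residue classes modulo `m` that contain a nonzero element of `X` -/
def residues (X : Set ℤ) (m : ℕ) : Set (ZMod m) := {c | ∃ x ∈ X, x ≠ 0 ∧ (x : ZMod m) = c}

/-- the maximal number of residue classes modulo `m` with no difference in `residues X m` -/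
noncomputable def dmax (X : Set ℤ) (m : ℕ) : ℕ :=
  sSup {n : ℕ | ∃ A : Finset (ZMod m), (∀ a ∈ A, ∀ b ∈ A, a - b ∉ residues X m) ∧ n = A.card}

theorem dmax_bdd (X : Set ℤ) (m : ℕ) (hm : 1 ≤ m) : BddAbove
    {n : ℕ | ∃ A : Finset (ZMod m), (∀ a ∈ A, ∀ b ∈ A, a - b ∉ residues X m) ∧ n = A.card} := by
  have : NeZero m := ⟨by omega⟩
  refine ⟨m, ?_⟩
  rintro n ⟨A, -, rfl⟩
  have := Finset.card_le_univ A
  rwa [ZMod.card] at this

theorem dmax_mem (X : Set ℤ) (m : ℕ) (hm : 1 ≤ m) :
    ∃ A : Finset (ZMod m), (∀ a ∈ A, ∀ b ∈ A, a - b ∉ residues X m) ∧ dmax X m = A.card := by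
  have hne : {n : ℕ | ∃ A : Finset (ZMod m), (∀ a ∈ A, ∀ b ∈ A, a - b ∉ residues X m) ∧
      n = A.card}.Nonempty := ⟨0, ∅, by simp, by simp⟩
  exact Nat.sSup_mem hne (dmax_bdd X m hm)

theorem le_dmax (X : Set ℤ) (m : ℕ) (hm : 1 ≤ m) (A : Finset (ZMod m))
    (hA : ∀ a ∈ A, ∀ b ∈ A, a - b ∉ residues X m) : A.card ≤ dmax X m :=
  le_csSup (dmax_bdd X m hm) ⟨A, hA, rfl⟩

theorem ncard_eq (A : Set ℕ) [DecidablePred (· ∈ A)] (N : ℕ) :
    (A ∩ Set.Icc 1 N).ncard = ((Finset.Icc 1 N).filter (· ∈ A)).card := by
  rw [← Set.ncard_coe_finset]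
  congr 1
  ext n
  simp only [Set.mem_inter_iff, Set.mem_Icc, Finset.coe_filter, Finset.mem_Icc, Set.mem_ofPred_eq]
  tauto

theorem ratio_nonneg (A : Set ℕ) (N : ℕ) : 0 ≤ ((A ∩ Set.Icc 1 N).ncard : ℝ) / N := by positivity

theorem ratio_le_one (A : Set ℕ) (N : ℕ) : ((A ∩ Set.Icc 1 N).ncard : ℝ) / N ≤ 1 := by
  classical
  apply div_le_one_of_le₀ _ (Nat.cast_nonneg N)
  rw [ncard_eq]
  have := Finset.card_filter_le (Finset.Icc 1 N) (· ∈ A)
  rw [Nat.card_Icc, Nat.add_sub_cancel] at this
  exact_mod_cast this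

theorem upperDensity_le_one (A : Set ℕ) : upperDensity A ≤ 1 := by
  unfold upperDensity
  refine limsup_le_of_le ?_ (Eventually.of_forall fun N => ratio_le_one A N)
  exact IsBoundedUnder.isCoboundedUnder_le
    ⟨0, by rw [eventually_map]; exact Eventually.of_forall fun N => ratio_nonneg A N⟩

/-- the periodic sets -/
theorem le_mu (X : Set ℤ) (m : ℕ) (hm : 1 ≤ m) : (dmax X m : ℝ) / m ≤ mu X := by
  classical
  have : NeZero m := ⟨by omega⟩
  obtain ⟨A, hA, hd⟩ := dmax_mem X m hm
  set E : Set ℕ := {n | 1 ≤ n ∧ (n : ZMod m) ∈ A} with hE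
  have hav : Avoids E X := by
    refine ⟨fun a ha => ha.1, fun a ha b hb hx => ?_⟩
    by_contra hne
    apply hA _ ha.2 _ hb.2
    exact ⟨_, hx, hne, by push_cast; rfl⟩
  have hm0 : (0 : ℝ) < m := by exact_mod_cast hm
  have hlow : (dmax X m : ℝ) / m ≤ upperDensity E := by
    have hcount : ∀ N : ℕ, A.card * (N / m) ≤ ((Finset.Icc 1 N).filter (· ∈ E)).card := by
      intro N
      have h1 : (A ×ˢ range (N / m)).card ≤ ((Finset.Icc 1 N).filter (· ∈ E)).card := by
        refine Finset.card_le_card_of_injOn
          (fun z => m * z.2 + (if z.1.val = 0 then m else z.1.val)) ?_ ?_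
        · rintro ⟨a, j⟩ haj
          rw [Finset.mem_coe, mem_product, mem_range] at haj
          have hlt := ZMod.val_lt a
          have hj : m * (j + 1) ≤ N :=
            (Nat.mul_le_mul_left m (by have := haj.2; simp only at this; omega)).trans
              (Nat.mul_div_le N m)
          have hj' : m * (j + 1) = m * j + m := by ring
          rw [Finset.mem_coe, mem_filter, Finset.mem_Icc]
          beta_reduce
          simp only
          split_ifs with h0
          · refine ⟨⟨by omega, by omega⟩, by omega, ?_⟩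
            have : ((m * j + m : ℕ) : ZMod m) = a := by
              push_cast
              rw [ZMod.natCast_self, zero_mul, zero_add]
              exact ((ZMod.val_eq_zero a).1 h0).symm
            rw [this]; exact haj.1
          · refine ⟨⟨by omega, by omega⟩, by omega, ?_⟩
            have : ((m * j + a.val : ℕ) : ZMod m) = a := by
              push_cast
              rw [ZMod.natCast_self, zero_mul, zero_add, ZMod.natCast_zmod_val]
            rw [this]; exact haj.1
        · rintro ⟨a, j⟩ _ ⟨b, i⟩ _ hab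
          simp only at hab
          have ha := ZMod.val_lt a
          have hb := ZMod.val_lt b
          have key : ∀ (x y s t : ℕ), x < m → y < m → m * s + (if x = 0 then m else x) =
              m * t + (if y = 0 then m else y) → x = y ∧ s = t := by
            intro x y s t hx hy hxy
            set x' := if x = 0 then m else x with hx'
            set y' := if y = 0 then m else y with hy'
            have hx1 : 1 ≤ x' ∧ x' ≤ m := by rw [hx']; split_ifs <;> omega
            have hy1 : 1 ≤ y' ∧ y' ≤ m := by rw [hy']; split_ifs <;> omega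
            have hst : s = t := by
              rcases lt_trichotomy s t with h | h | h
              · have : m * (s + 1) ≤ m * t := Nat.mul_le_mul_left m h
                have e : m * (s + 1) = m * s + m := by ring
                omega
              · exact h
              · have : m * (t + 1) ≤ m * s := Nat.mul_le_mul_left m h
                have e : m * (t + 1) = m * t + m := by ring
                omega
            subst hst
            have hxy' : x' = y' := by omega
            refine ⟨?_, rfl⟩
            rw [hx', hy'] at hxy'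
            split_ifs at hxy' <;> omega
          obtain ⟨h1, h2⟩ := key _ _ _ _ ha hb hab
          rw [Prod.mk.injEq]
          exact ⟨ZMod.val_injective m h1, h2⟩
      rwa [card_product, card_range] at h1
    have hlim : Tendsto (fun N : ℕ => (A.card : ℝ) / m - A.card * (1 / (N : ℝ))) atTop
        (𝓝 ((A.card : ℝ) / m)) := by
      have := (tendsto_one_div_atTop_nhds_zero_nat (𝕜 := ℝ)).const_mul (A.card : ℝ)
      have h2 := (tendsto_const_nhds (x := (A.card : ℝ) / m)).sub this
      simpa using h2
    have hle : ∀ᶠ N : ℕ in atTop, (A.card : ℝ) / m - A.card * (1 / (N : ℝ)) ≤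
        ((E ∩ Set.Icc 1 N).ncard : ℝ) / N := by
      filter_upwards [eventually_gt_atTop 0] with N hN
      have hN0 : (0 : ℝ) < N := by exact_mod_cast hN
      rw [ncard_eq, le_div_iff₀ hN0]
      have h1 : (A.card : ℝ) * ((N / m : ℕ) : ℝ) ≤ ((Finset.Icc 1 N).filter (· ∈ E)).card := by
        exact_mod_cast hcount N
      have h2 : (N : ℝ) / m - 1 ≤ ((N / m : ℕ) : ℝ) := by
        have h3 : N < m * (N / m + 1) := by
          have := Nat.lt_mul_div_succ N hm
          exact this
        have h4 : (N : ℝ) < m * (((N / m : ℕ) : ℝ) + 1) := by exact_mod_cast h3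
        rw [sub_le_iff_le_add, div_le_iff₀ hm0]
        linarith
      refine le_trans ?_ h1
      calc ((A.card : ℝ) / m - A.card * (1 / (N : ℝ))) * N = A.card * ((N : ℝ) / m - 1) := by
            field_simp
        _ ≤ _ := mul_le_mul_of_nonneg_left h2 (Nat.cast_nonneg _)
    rw [hd, ← hlim.limsup_eq]
    refine limsup_le_limsup hle ?_ ?_
    · exact hlim.isCoboundedUnder_le
    · exact ⟨1, by rw [eventually_map]; exact Eventually.of_forall fun N => ratio_le_one E N⟩
  refine hlow.trans (le_csSup ⟨1, ?_⟩ ⟨E, hav, rfl⟩)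
  rintro δ ⟨A', -, rfl⟩
  exact upperDensity_le_one A'

open Pool.Agent.X114.PD in
/-- the equality for a general set with equidistributed residue classes -/
theorem mu_eq (X : Set ℤ)
    (hgood : ∀ m : ℕ, 1 ≤ m → ∃ F : Finset ℤ, ∀ k ∈ X, k ≠ 0 → k ∉ F → Good X m k) :
    mu X = sSup {t : ℝ | ∃ m : ℕ, 1 ≤ m ∧ t = (dmax X m : ℝ) / m} := by
  classical
  set Sset : Set ℝ := {t : ℝ | ∃ m : ℕ, 1 ≤ m ∧ t = (dmax X m : ℝ) / m} with hSset
  have hbdd : BddAbove Sset := by
    refine ⟨mu X, ?_⟩
    rintro t ⟨m, hm, rfl⟩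
    exact le_mu X m hm
  have hne : Sset.Nonempty := ⟨_, 1, le_rfl, rfl⟩
  apply le_antisymm
  · refine csSup_le ⟨upperDensity ∅, ∅, ⟨by simp, by simp⟩, rfl⟩ ?_
    rintro δ₀ ⟨A, hA, rfl⟩
    by_contra hcon
    push Not at hcon
    obtain ⟨δ, hδ1, hδ2⟩ := exists_between hcon
    have hfreq : ∃ᶠ N : ℕ in atTop, δ < ((A ∩ Set.Icc 1 N).ncard : ℝ) / N := by
      refine frequently_lt_of_lt_limsup ?_ hδ2
      exact IsBoundedUnder.isCoboundedUnder_le
        ⟨0, by rw [eventually_map]; exact Eventually.of_forall fun N => ratio_nonneg A N⟩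
    have hfreq2 : ∃ᶠ n : ℕ in atTop, δ * n ≤ (((range (n + 1)).filter (· ∈ A)).card : ℝ) := by
      refine (hfreq.and_eventually (eventually_gt_atTop 0)).mono ?_
      rintro N ⟨h1, h2⟩
      have hN0 : (0 : ℝ) < N := by exact_mod_cast h2
      rw [lt_div_iff₀ hN0, ncard_eq] at h1
      refine h1.le.trans ?_
      have : (Finset.Icc 1 N).filter (· ∈ A) ⊆ (range (N + 1)).filter (· ∈ A) := by
        intro x hx
        rw [mem_filter, Finset.mem_Icc] at hx
        rw [mem_filter, mem_range]
        exact ⟨by omega, hx.2⟩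
      exact_mod_cast card_le_card this
    obtain ⟨μ, hμ, hT, hB, hX⟩ := corr A δ hfreq2
    obtain ⟨L, A', hL, hAL, hdiff, hcard⟩ := extract hT X base base_clopen.2.measurableSet
      (fun k hk hk0 => hX k fun i hi j hj hij => by
        apply hk0
        rw [← hij]
        exact hA.2 j hj i hi (by rw [hij]; exact hk)) hgood ((δ - sSup Sset) / 2) (by linarith)
    have : NeZero L := ⟨by omega⟩
    have hL0 : (0 : ℝ) < L := by exact_mod_cast hL
    set A'' : Finset (ZMod L) := A'.image (fun n : ℕ => (n : ZMod L)) with hA''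
    have hcard2 : A''.card = A'.card := by
      apply card_image_of_injOn
      intro a ha b hb hab
      have ha' := mem_range.1 (hAL ha)
      have hb' := mem_range.1 (hAL hb)
      have h3 := (ZMod.natCast_eq_natCast_iff a b L).1 hab
      exact Nat.ModEq.eq_of_lt_of_lt h3 ha' hb'
    have h4 : A''.card ≤ dmax X L := by
      apply le_dmax X L hL
      intro a ha b hb
      rw [hA'', mem_image] at ha hb
      obtain ⟨a', ha', rfl⟩ := ha
      obtain ⟨b', hb', rfl⟩ := hb
      rintro ⟨x, hx, hx0, hxe⟩
      apply hdiff a' ha' b' hb' x hx hx0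
      rw [← ZMod.intCast_zmod_eq_zero_iff_dvd]
      push_cast
      rw [hxe, sub_self]
    have h5 : (dmax X L : ℝ) / L ≤ sSup Sset := le_csSup hbdd ⟨L, hL, rfl⟩
    have h6 : ((A'.card : ℝ)) ≤ dmax X L := by rw [← hcard2]; exact_mod_cast h4
    have h7 : μ.real base - (δ - sSup Sset) / 2 ≤ (dmax X L : ℝ) / L := by
      rw [le_div_iff₀ hL0]
      exact hcard.trans h6
    linarith
  · refine csSup_le hne ?_
    rintro t ⟨m, hm, rfl⟩
    exact le_mu X m hm

/-- **Polynomial-value differences.** -/
theorem result (h : ℤ[X]) :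
    mu {k : ℤ | ∃ n : ℤ, h.eval n = k} =
        sSup {t : ℝ | ∃ m : ℕ, 1 ≤ m ∧ t = (dmax {k : ℤ | ∃ n : ℤ, h.eval n = k} m : ℝ) / m} ∧
      mu {k : ℤ | ∃ p : ℕ, p.Prime ∧ h.eval (p : ℤ) = k} =
        sSup {t : ℝ | ∃ m : ℕ, 1 ≤ m ∧
          t = (dmax {k : ℤ | ∃ p : ℕ, p.Prime ∧ h.eval (p : ℤ) = k} m : ℝ) / m} := by
  classical
  rcases Nat.eq_zero_or_pos h.natDegree with hd | hd
  · -- constant polynomials
    have hc : ∀ z : ℤ, h.eval z = h.coeff 0 := by
      intro z
      rw [eq_C_of_natDegree_eq_zero hd, eval_C, coeff_C_zero]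
    constructor
    · apply mu_eq
      intro m _
      refine ⟨{h.coeff 0}, ?_⟩
      rintro k ⟨n, rfl⟩ _ hk
      exact absurd (by rw [hc, Finset.mem_singleton]) hk
    · apply mu_eq
      intro m _
      refine ⟨{h.coeff 0}, ?_⟩
      rintro k ⟨p, _, rfl⟩ _ hk
      exact absurd (by rw [hc, Finset.mem_singleton]) hk
  · constructor
    · apply mu_eq
      intro m hm
      refine ⟨∅, ?_⟩
      rintro k ⟨n, rfl⟩ _ _
      exact Pool.Agent.X114.PD.good_int h hd m hm n
    · apply mu_eq
      intro m hm
      refine ⟨m.primeFactors.image fun p : ℕ => h.eval (p : ℤ), ?_⟩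
      rintro k ⟨p, hp, rfl⟩ _ hk
      apply Pool.Agent.X114.PD.good_prime h hd m hm p
      rw [Nat.Prime.coprime_iff_not_dvd hp]
      intro hdv
      apply hk
      rw [mem_image]
      exact ⟨p, Nat.mem_primeFactors.2 ⟨hp, hdv, by omega⟩, rfl⟩

end Pool.Agent.Results.MP_e70ed2_nt.PolynomialDifferenceDensity
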